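import Mathlib
import Pool.Agent.Helper278.DefsG
import Pool.Agent.Helper278.CEStmt
import Pool.Agent.Helper436.SM.Stmt
import Pool.Agent.Helper436.SM.Main

set_option autoImplicit false

namespace Pool.Agent.Results.MP_a6af55_an.TwoClasses

open Pool.Agent.Helper278 Pool.Agent.Helper436.SM

universe w

/-- For every nonprincipal ultrafilter `U` on `ℕ` there are two Connes embeddable super McDuff
II₁ factors that are not elementarily equivalent. -/
theorem result (U : Ultrafilter ℕ) (hU : ∀ n, {n} ∉ U) :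
    ∃ (H K : Type) (_ : NormedAddCommGroup H) (_ : InnerProductSpace ℂ H) (_ : CompleteSpace H)
      (_ : NormedAddCommGroup K) (_ : InnerProductSpace ℂ K) (_ : CompleteSpace K)
      (N : VonNeumannAlgebra H) (τ : Elt N → ℂ) (M : VonNeumannAlgebra K) (σ : Elt M → ℂ),
      IsIIOneFactor N τ ∧ IsIIOneFactor M σ ∧ ConnesEmbeddable U τ ∧ ConnesEmbeddable U σ ∧
        SuperMcDuff U τ ∧ SuperMcDuff U σ ∧ ¬ ElemEquiv.{w} τ σ := by
  obtain ⟨H, _, _, _, N, T, WN, hW, hP⟩ := ExR.exists_R
  have hpb := pb_unit (trAlg T) hW hP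
  have : Countable GG := by
    have : Function.Injective (fun g : GG => (g.left, g.right)) := by
      intro g g' h
      exact SemidirectProduct.ext (congrArg Prod.fst h) (congrArg Prod.snd h)
    exact this.countable
  obtain ⟨K, _, _, _, M, S, u, W, hM, Q, _, _, _, π, φ, θ, hQ, hθ⟩ :=
    ExM.exists_M T hW U hU (G := GG) (exists_perm_reps fun g hg => gg_rf free_rf g hg)
  obtain ⟨Q', _, _, _, π', φ', θ', hQ', hθ'⟩ := exists_const T U
  have hII := isIIOne_of hpb gapAll_unit
  have hhyp := Hyp.hyperfinite_of_pauli (trAlg T) hW hP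
  exact ⟨H, K, inferInstance, inferInstance, inferInstance, inferInstance, inferInstance,
    inferInstance, N, fun x => T.τ x, M, fun x => S.τ x, hII, isIIOne_of hM gapAll_GG,
    ⟨H, inferInstance, inferInstance, inferInstance, N, fun x => T.τ x, Q', inferInstance,
      inferInstance, inferInstance, π', φ', ⟨hII, hhyp⟩, hQ', ⟨θ', hθ'⟩⟩,
    ⟨H, inferInstance, inferInstance, inferInstance, N, fun x => T.τ x, Q, inferInstance,
      inferInstance, inferInstance, π, φ, ⟨hII, hhyp⟩, hQ, ⟨θ, hθ⟩⟩,
    superMcDuff_of_pb hpb gapAll_unit U hU, superMcDuff_of_pb hM gapAll_GG U hU,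
    not_elemEquiv hW hP hM⟩

end Pool.Agent.Results.MP_a6af55_an.TwoClasses
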